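import Pool.Agent.Q193.LT.Ab

/-!
# The parity conjecture and the abelian varieties in the cohomology of `T(x, y, z) = 1`

Let `K` be a number field and `M` the category of motives over `K` for motivated (or absolute Hodge)
cycles, a semisimple abelian category with Tate twists `N ↦ N(a)`. For a separated scheme `X` of finite
type over `K` let `D.H i X` be the object of `M` given by the graded object of the weight filtration of
the cohomology with compact supports `H^i_c(X)`; for smooth projective `X` it is the motive `h^i(X)`.

`Ab A` says that `A` is an abelian variety over `K`, and `Par A` is the parity conjecture for `A`: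
`(-1)^{rk A(K)} = ∏_v w(A/K_v)`. Both sides are invariant under isogenies and multiplicative in products,
and every decomposition of `h^1(A)` comes from an isogeny `A ∼ B × C` (`IsAb D Ab Par`, with the fact that
`h^1(A)` is a direct factor of `h^1(Y)` for a curve `Y`). The motives of the point `Spec K` are zero or
`1`, and no nonzero `h^1(A)` is a factor of a Tate motive (hypothesis `point`).

`AbFactors D Ab Par N` says that the parity conjecture is true for all abelian varieties `A` over `K` such
that `h^1(A)` is isomorphic to a direct factor of a Tate twist of `N`.

**Theorem.** The parity conjecture is true for all abelian varieties over `K` if and only if it is true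
for the abelian varieties `A` over `K` such that `h^1(A)` is isomorphic to a direct factor of a Tate twist
of `Gr^W H^i_c(T = 1)` for some `i` and some smooth affine cubic hypersurface `T(x, y, z) = 1`, where `T`
is a trilinear form over `K` such that one of the three blocks of variables has at most three variables
(the other two blocks are arbitrary).
-/

set_option autoImplicit false

open CategoryTheory CategoryTheory.Limits AlgebraicGeometry Pool.Agent.Y116.UV Pool.Agent.Z125.UN
  Pool.Agent.Q193.LT

universe v u

namespace Pool.Agent.Results.MP_ac3185_nt.CubicFactors

/-- **The parity conjecture and cubic hypersurfaces.** See the explanations above. -/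
theorem result {K : Type} [Field K] [NumberField K] {M : Type u} [Category.{v} M] [Abelian M]
    {D : CompactData K M} (h : IsMotives D) {Ab Par : Sch K → Prop} (hA : IsAb D Ab Par)
    (point : ∀ i, AbFactors D Ab Par (D.H i (aff K K))) :
    (∀ A, Ab A → Par A) ↔
      ∀ (a b c : ℕ) (T : Fin a → Fin b → Fin c → K), (a ≤ 3 ∨ b ≤ 3 ∨ c ≤ 3) →
        ∀ i, AbFactors D Ab Par (D.H i (hypS T)) :=
  ab_iff h hA point

end Pool.Agent.Results.MP_ac3185_nt.CubicFactors
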