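import Mathlib
import Pool.Agent.Y667.OG.Main
import Pool.Agent.Y667.OG.Prod
import Pool.Agent.W307.RT.Tors
import Pool.Agent.Y679.Cr.Conv
import Pool.Agent.Y679.Cr.Dens
import Pool.Agent.Q97.PT.Main
import Pool.Agent.Q323.CO.List
import Pool.Agent.Q323.CO.Tup

/-!
# The parity conjecture for products of elliptic curves, by conductor

All `g`-tuples of elliptic curves over `ℚ` with full rational 2-torsion, ordered by the conductor (with
an arbitrary bounded factor in the place of its part composed of 2 and 3), with no bound on the height,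
`A = E₁ × ... × E_g`. For all `r₁, ..., r_g ≥ 0` a positive proportion of the tuples has the following
property: the 2-Selmer group of `A` over `ℚ` has order `2 ^ (∑ r_i + 2 g)`, the rank of `A(ℚ)` is at
most `∑ r_i`, and over EVERY number field `K` whose Galois closure over `ℚ` has odd degree (`K` need
not be Galois) the product of the local root numbers of `A` is `(-1) ^ (∑ r_i)` and the rank of `A(K)`
has the parity of the rank of `A(ℚ)`. For `r₁ = ... = r_g = 0` this is the parity conjecture for `A`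
over all these fields: the rank of `A(K)` is even and `w(A/K) = 1`.
-/

set_option autoImplicit false

namespace Pool.Agent.Results.MP_ac3185_nt.ProductsByConductor

open Finset Filter Topology NumberField

/-- the curve `y² = x³ + A x + B` over `ℚ` -/
def E (A B : ℤ) : WeierstrassCurve ℚ := ⟨0, 0, 0, (A : ℚ), (B : ℚ)⟩

/-- The prime-to-6 part of the conductor of `y² = x³ + A x + B` (there is no prime `p` with `p⁴ ∣ A`
and `p⁶ ∣ B`): the product over the primes `p ≥ 5` dividing `4 A³ + 27 B²` of `p` (multiplicative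
reduction: `p ∤ A`) or `p²` (additive reduction: `p ∣ A`) -/
def Cond6 (c : ℤ × ℤ) : ℕ :=
  ∏ p ∈ (Int.natAbs (4 * c.1 ^ 3 + 27 * c.2 ^ 2)).primeFactors.filter (fun p => 5 ≤ p),
    if (p : ℤ) ∣ c.1 then p ^ 2 else p

/-- the admissible factors: functions with values between `1` and `2 ^ 8 * 3 ^ 5`, for instance the
part of the conductor composed of the primes 2 and 3, or `f = 1` -/
def Factor (f : ℤ × ℤ → ℕ) : Prop := ∀ c, 1 ≤ f c ∧ f c ≤ 2 ^ 8 * 3 ^ 5

/-- the conductor (its prime-to-6 part times the factor `f`) of `y² = x³ + A x + B` is at most `Z` -/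
def CondLe (f : ℤ × ℤ → ℕ) (c : ℤ × ℤ) (Z : ℕ) : Prop := f c * Cond6 c ≤ Z

/-- The pairs `(A, B)` of integers such that `4 A³ + 27 B² ≠ 0`, there is no prime `p` with
`p⁴ ∣ A` and `p⁶ ∣ B`, `Z/2 x Z/2` embeds in the group of the rational points of
`y² = x³ + A x + B`, and the conductor (with the factor `f`) is at most `Z`. Every elliptic curve
over `ℚ` with full rational 2-torsion is isomorphic to `E A B` for exactly one pair with the first
three properties. -/
def Fam (f : ℤ × ℤ → ℕ) (Z : ℕ) : Set (ℤ × ℤ) :=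
  {c : ℤ × ℤ | 4 * c.1 ^ 3 + 27 * c.2 ^ 2 ≠ 0 ∧
    (∀ p : ℕ, p.Prime → ¬ ((p : ℤ) ^ 4 ∣ c.1 ∧ (p : ℤ) ^ 6 ∣ c.2)) ∧
    (∃ g : ZMod 2 × ZMod 2 →+ (E c.1 c.2).toAffine.Point, Function.Injective g) ∧ CondLe f c Z}

/-- the `g`-tuples of curves of conductor at most `Z` -/
def Tuples (f : ℤ × ℤ → ℕ) (g Z : ℕ) : Set (Fin g → ℤ × ℤ) := {c | ∀ i, c i ∈ Fam f Z}

/-- the proportion of the tuples of `S` among the tuples of curves of conductor at most `Z` -/
noncomputable def proportion (f : ℤ × ℤ → ℕ) (g : ℕ) (S : Set (Fin g → ℤ × ℤ)) (Z : ℕ) : ℝ :=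
  ((Tuples f g Z ∩ S).ncard : ℝ) / (Tuples f g Z).ncard

/-- The local condition at a completion `K` of `ℚ`: there is a point `(x, y)`, `y ≠ 0`, of
`y² = x³ + A x + B` over `K` such that `(x - e) * d e` is a square for all the integer roots `e` of
`x³ + A x + B`. (Every class of `E(K) / 2 E(K)` contains a point with `y ≠ 0`.) -/
def Local (K : Type) [Field K] (A B : ℤ) (d : ℤ → ℤ) : Prop :=
  ∃ x y : K, y ≠ 0 ∧ y ^ 2 = x ^ 3 + A * x + B ∧
    ∀ e : ℤ, e ^ 3 + A * e + B = 0 → IsSquare ((x - e) * d e)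

/-- The 2-Selmer group of `y² = x³ + A x + B`, a curve with three integer roots. As `E[2]` is the
group of the families of signs with product one indexed by the roots, an element of the 2-Selmer
group is a family of classes of nonzero rational numbers modulo squares indexed by the roots `e`,
given by squarefree integers `d e` (`d e = 1` if `e` is not a root), which over `ℝ` and over `ℚ_[p]`
for all primes `p` is the family of the classes of `x - e` for a point of the curve. -/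
def Sel2 (A B : ℤ) : Set (ℤ → ℤ) :=
  {d | (∀ e, Squarefree (d e)) ∧ (∀ e : ℤ, e ^ 3 + A * e + B ≠ 0 → d e = 1) ∧ Local ℝ A B d ∧
    ∀ (p : ℕ) [Fact p.Prime], Local ℚ_[p] A B d}

/-- the 2-Selmer group of the product `A = ∏ E_i` -/
def SelA {g : ℕ} (c : Fin g → ℤ × ℤ) : Set (Fin g → ℤ → ℤ) :=
  {d | ∀ i, d i ∈ Sel2 (c i).1 (c i).2}

/-- the rank of the group `A(ℚ)` of the abelian variety `A = ∏ E_i` -/
noncomputable def rank {g : ℕ} (c : Fin g → ℤ × ℤ) : ℕ :=
  Module.finrank ℤ ((i : Fin g) → (E (c i).1 (c i).2).toAffine.Point)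

section fields

variable (K : Type) [Field K] [NumberField K]

/-- the curve `y² = x³ + A x + B` over `K` -/
def EK (A B : ℤ) : WeierstrassCurve K := ⟨0, 0, 0, (A : K), (B : K)⟩

open Classical in
/-- the rank of the group `A(K)` of the abelian variety `A = ∏ E_i` -/
noncomputable def rankK {g : ℕ} (c : Fin g → ℤ × ℤ) : ℕ :=
  Module.finrank ℤ ((i : Fin g) → (EK K (c i).1 (c i).2).toAffine.Point)

variable {K}

/-- `V` is an equation with coefficients in the ring of integers of the curve `W` over `K` -/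
def ModelOf (W : WeierstrassCurve K) (V : WeierstrassCurve (𝓞 K)) : Prop :=
  ∃ C : WeierstrassCurve.VariableChange K, C • W = V.map (algebraMap (𝓞 K) K)

/-- `a_P = N(P) + 1 - #V(𝓞 K / P)`, that is `N(P)` minus the number of the affine solutions of the
Weierstrass equation modulo `P`; for a prime of multiplicative reduction this is `1` (split) or `-1`
(non-split) -/
noncomputable def aP (V : WeierstrassCurve (𝓞 K)) (P : Ideal (𝓞 K)) : ℤ :=
  (Nat.card (𝓞 K ⧸ P) : ℤ) - Nat.card {z : (𝓞 K ⧸ P) × (𝓞 K ⧸ P) //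
    (V.map (Ideal.Quotient.mk P)).toAffine.Equation z.1 z.2}

/-- the quadratic twist by `d` of the curve `V` (the curve `y² = x³ + b₂ x² + 8 b₄ x + 16 b₆`) -/
def twist (V : WeierstrassCurve (𝓞 K)) (d : 𝓞 K) : WeierstrassCurve K :=
  ⟨0, (d : K) * (V.b₂ : K), 0, 8 * (d : K) ^ 2 * (V.b₄ : K), 16 * (d : K) ^ 3 * (V.b₆ : K)⟩

open Classical in
/-- `w` is the local root number of the elliptic curve `W` at the prime `P`, for three types of
reduction at `P`: good reduction (`1`), multiplicative reduction (`-a_P`), and, for `P` prime to `2`,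
the quadratic twist by an integer `d` of odd valuation `n` at `P` of a curve with good reduction at `P`
(`1` if `-1` is a square modulo `P` and `-1` otherwise) -/
def LocalRoot (W : WeierstrassCurve K) (P : Ideal (𝓞 K)) (w : ℤ) : Prop :=
  (∃ V : WeierstrassCurve (𝓞 K), ModelOf W V ∧ V.Δ ∉ P ∧ w = 1) ∨
  (∃ V : WeierstrassCurve (𝓞 K), ModelOf W V ∧ V.Δ ∈ P ∧ V.c₄ ∉ P ∧ w = -aP V P) ∨
  ((2 : 𝓞 K) ∉ P ∧ ∃ (V : WeierstrassCurve (𝓞 K)) (d : 𝓞 K) (n : ℕ), Odd n ∧ d ∈ P ^ n ∧
    d ∉ P ^ (n + 1) ∧ (∃ C : WeierstrassCurve.VariableChange K, C • W = twist V d) ∧ V.Δ ∉ P ∧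
    w = if IsSquare (-1 : 𝓞 K ⧸ P) then 1 else -1)

/-- `w` is the product over all the places `v` of `K` of the local root numbers of the product of the
curves `W i`: the local root number is `(-1) ^ g` at the infinite places, at `P` it is the product of
the local root numbers `f P i` of the curves, and it is `1` outside the finite set `S` -/
def RootProduct {g : ℕ} (W : Fin g → WeierstrassCurve K) (w : ℤ) : Prop :=
  ∃ f : Ideal (𝓞 K) → Fin g → ℤ,
    (∀ P : Ideal (𝓞 K), P.IsPrime → P ≠ ⊥ → ∀ i, LocalRoot (W i) P (f P i)) ∧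
    ∃ S : Finset (Ideal (𝓞 K)), (∀ P ∈ S, P.IsPrime ∧ P ≠ ⊥) ∧
      (∀ P : Ideal (𝓞 K), P.IsPrime → P ≠ ⊥ → P ∉ S → ∏ i, f P i = 1) ∧
      w = ((-1) ^ g) ^ Nat.card (InfinitePlace K) * ∏ P ∈ S, ∏ i, f P i

end fields

/-- `K` is a number field whose Galois closure over `ℚ` has odd degree: `K` is contained in a number
field `N` that is Galois of odd degree over `ℚ`. -/
def OddClosed (K : Type) [Field K] [NumberField K] : Prop :=
  ∃ (N : Type) (_ : Field N) (_ : NumberField N) (_ : Algebra K N),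
    IsGalois ℚ N ∧ Odd (Module.finrank ℚ N)

/-- The `g`-tuples of curves such that for `A = ∏ E_i` the 2-Selmer group over `ℚ` has order
`2 ^ (∑ r_i + 2 g)`, the rank of `A(ℚ)` is at most `∑ r_i`, and, over all number fields `K` with a Galois
closure of odd degree, the product of the local root numbers is `(-1) ^ (∑ r_i)` and the rank has the
parity of the rank over `ℚ`. -/
def ParityOdd {g : ℕ} (r : Fin g → ℕ) : Set (Fin g → ℤ × ℤ) :=
  {c | (SelA c).Finite ∧ (SelA c).ncard = 2 ^ (∑ i, r i + 2 * g) ∧ rank c ≤ ∑ i, r i ∧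
    ∀ (K : Type) [Field K] [NumberField K], OddClosed K →
      RootProduct (fun i => EK K (c i).1 (c i).2) ((-1) ^ (∑ i, r i)) ∧
        Even (rankK K c + rank c)}

lemma closure_of {K : Type} [Field K] [NumberField K] (h : OddClosed K) :
    Pool.Agent.Q97.PT.OddClosure ℚ K := by
  obtain ⟨N, i1, i2, i3, h1, h2⟩ := h
  exact ⟨N, i1, i2, inferInstance, i3, inferInstance, h1, h2⟩

lemma sel_card {g : ℕ} (c : Fin g → ℤ × ℤ) (r : Fin g → ℕ)
    (h : ∀ i, (Sel2 (c i).1 (c i).2).Finite ∧ (Sel2 (c i).1 (c i).2).ncard = 2 ^ (r i + 2)) :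
    (SelA c).Finite ∧ (SelA c).ncard = 2 ^ (∑ i, r i + 2 * g) := by
  classical
  have e : SelA c = ((Fintype.piFinset fun i => (h i).1.toFinset : Finset (Fin g → ℤ → ℤ)) :
      Set (Fin g → ℤ → ℤ)) := by
    ext d
    rw [mem_coe, Fintype.mem_piFinset]
    simp only [Set.Finite.mem_toFinset]
    exact Iff.rfl
  rw [e]
  refine ⟨finite_toSet _, ?_⟩
  rw [Set.ncard_coe_finset, Fintype.card_piFinset]
  have e2 : ∀ i, ((h i).1.toFinset).card = 2 ^ (r i + 2) := fun i => by
    rw [← Set.ncard_eq_toFinset_card _ (h i).1]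
    exact (h i).2
  rw [prod_congr rfl fun i _ => e2 i, prod_pow_eq_pow_sum, sum_add_distrib, sum_const, card_univ,
    Fintype.card_fin, smul_eq_mul, mul_comm g 2]

lemma parity_of {g : ℕ} {r : Fin g → ℕ} {c : Fin g → ℤ × ℤ}
    (hD : ∀ i, 4 * (c i).1 ^ 3 + 27 * (c i).2 ^ 2 ≠ 0)
    (hT : ∀ i, ∃ f : ZMod 2 × ZMod 2 →+ (E (c i).1 (c i).2).toAffine.Point, Function.Injective f)
    (h : ∀ i, Pool.Agent.Y667.OG.TOG (r i) (c i)) : c ∈ ParityOdd r := by
  classical
  have hT' := fun i => Pool.Agent.W307.RT.tors_iff.2 (hT i)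
  have hrk : ∀ (K : Type) [Field K] [NumberField K],
      rankK K c = ∑ i, Pool.Agent.Q97.PT.rk K (c i) := by
    intro K _ _
    have hfin : ∀ i, Module.Finite ℤ (EK K (c i).1 (c i).2).toAffine.Point := fun i =>
      Pool.Agent.Q97.PT.fin_pt (hD i) (hT' i)
    exact Pool.Agent.Y667.PA.rk_pi g (fun i => (EK K (c i).1 (c i).2).toAffine.Point)
  have hrk2 : rank c = ∑ i, Pool.Agent.Q97.PT.rk ℚ (c i) := by
    have hfin : ∀ i, Module.Finite ℤ (E (c i).1 (c i).2).toAffine.Point := fun i =>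
      Pool.Agent.Q97.PT.fin_Q (hD i) (hT' i)
    have h1 : rank c = ∑ i, Module.finrank ℤ (E (c i).1 (c i).2).toAffine.Point :=
      Pool.Agent.Y667.PA.rk_pi g (fun i => (E (c i).1 (c i).2).toAffine.Point)
    rw [h1]
    exact sum_congr rfl fun i _ => Pool.Agent.Q97.PT.rk_Q (c i)
  obtain ⟨s1, s2⟩ := sel_card c r fun i => ⟨(h i).1.1, (h i).1.2.1⟩
  refine ⟨s1, s2, ?_, ?_⟩
  · rw [hrk2]
    refine sum_le_sum fun i _ => ?_
    rw [← Pool.Agent.Q97.PT.rk_Q]
    exact Pool.Agent.Y667.MT.rank_le (hD i) (hT' i) (h i).1.1 (h i).1.2.1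
  · intro K _ _ hK
    refine ⟨?_, ?_⟩
    · have h1 := Pool.Agent.Y667.OG.prodRootK (fun i => EK K (c i).1 (c i).2)
        (fun i => (-1 : ℤ) ^ (r i)) fun i =>
          Pool.Agent.Q97.PT.root_closure (closure_of hK) (Pool.Agent.Q97.PT.root_Q (h i).2)
      rw [prod_pow_eq_pow_sum] at h1
      exact h1
    · rw [hrk K, hrk2, ← sum_add_distrib]
      exact even_sum _ fun i _ => Pool.Agent.Q97.PT.rk_closure (closure_of hK) (hD i) (hT' i)

/-- the property without the size -/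
def Pr (c : ℤ × ℤ) : Prop := 4 * c.1 ^ 3 + 27 * c.2 ^ 2 ≠ 0 ∧
    (∀ p : ℕ, p.Prime → ¬ ((p : ℤ) ^ 4 ∣ c.1 ∧ (p : ℤ) ^ 6 ∣ c.2)) ∧
    (∃ g : ZMod 2 × ZMod 2 →+ (E c.1 c.2).toAffine.Point, Function.Injective g)

lemma good : Pool.Agent.Y679.Cr.Good Pr := by
  classical
  refine ⟨fun c hc => ⟨?_, ?_⟩, fun H c hc => ?_, Pool.Agent.W672.FK.lowf⟩
  · exact Pool.Agent.Y679.Cr.isMin_of hc.1 hc.2.1
  · exact Pool.Agent.Y679.Cr.full_of (Pool.Agent.W307.RT.tors_iff.2 hc.2.2)
  · unfold Pool.Agent.W307.RT.Cv at hc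
    obtain ⟨-, h1, -, -, h2, h3⟩ := mem_filter.1 hc
    exact ⟨h1, h2, Pool.Agent.W307.RT.tors_iff.1 h3⟩

lemma cond_eq (c : ℤ × ℤ) : Pool.Agent.Y679.Cr.cs c = Cond6 c := by
  unfold Pool.Agent.Y679.Cr.cs Pool.Agent.H925R.Szpiro.condS Cond6
  rw [Pool.Agent.Y679.Cr.D_neg, Int.natAbs_neg]
  refine prod_congr rfl fun p _ => ?_
  by_cases h : (p : ℤ) ∣ c.1
  · rw [if_pos h, if_pos (Int.dvd_neg.2 h)]
  · rw [if_neg h, if_neg fun h' => h (Int.dvd_neg.1 h')]

lemma bdd {f : ℤ × ℤ → ℕ} (hf : Factor f) : Pool.Agent.Y679.Cr.Bdd f :=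
  fun c => ⟨(hf c).1, (hf c).2.trans (by norm_num)⟩

lemma FamC_eq (f : ℤ × ℤ → ℕ) (Z : ℕ) : Fam f Z = Pool.Agent.Y679.Cr.Gm Pr f Z := by
  ext c
  unfold Fam CondLe Pool.Agent.Y679.Cr.Gm
  rw [Set.mem_ofPred_eq, Set.mem_ofPred_eq, cond_eq]
  exact ⟨fun h => ⟨⟨h.1, h.2.1, h.2.2.1⟩, h.2.2.2⟩, fun h => ⟨h.1.1, h.1.2.1, h.1.2.2, h.2⟩⟩

/-- **Theorem.** Let `g ≥ 0`. Order the elliptic curves over `ℚ` with full rational 2-torsion by the
conductor (the part composed of 2 and 3 replaced by an arbitrary factor `f` between `1` and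
`2 ^ 8 * 3 ^ 5`, for instance by itself). There are finitely many `g`-tuples of curves of conductor at
most `Z`, the number of the curves tends to infinity with `Z`, and for all `r₁, ..., r_g ≥ 0` there is
`δ > 0` such that for all large `Z`, for all factors `f`, at least the proportion `δ` of the
`g`-tuples of curves of conductor at most `Z` has the following property: for `A = ∏ E_i` the 2-Selmer
group over `ℚ` has order `2 ^ (∑ r_i + 2 g)`, the rank over `ℚ` is at most `∑ r_i`, and over every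
number field `K` whose Galois closure has odd degree `w(A/K) = (-1) ^ (∑ r_i)` and the rank has the
parity of the rank over `ℚ`. If all the `r_i` are zero then `w(A/K) = 1` and the rank of `A(K)` is
even. -/
theorem result (g : ℕ) :
    (∀ f : ℤ × ℤ → ℕ, Factor f → (∀ Z : ℕ, (Tuples f g Z).Finite) ∧
      Tendsto (fun Z : ℕ => (Fam f Z).ncard) atTop atTop) ∧
    ∀ r : Fin g → ℕ, ∃ δ : ℝ, 0 < δ ∧ ∀ᶠ Z : ℕ in atTop, ∀ f : ℤ × ℤ → ℕ, Factor f →
      δ ≤ proportion f g (ParityOdd r) Z := by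
  classical
  have hfin : ∀ f : ℤ × ℤ → ℕ, Factor f → ∀ Z : ℕ, (Fam f Z).Finite := fun f hf Z => by
    rw [FamC_eq]
    exact Pool.Agent.Y679.Cr.Gm_fin good (bdd hf) Z
  refine ⟨fun f hf => ⟨fun Z => Pool.Agent.Q323.CO.fin (hfin f hf Z), ?_⟩, fun r => ?_⟩
  · simp only [FamC_eq]
    exact Pool.Agent.Y679.Cr.Gm_tendsto good (bdd hf)
  · have h0 : ∀ r : ℕ, ∃ δ : ℝ, 0 < δ ∧ ∃ Z0 : ℕ, ∀ Z : ℕ, Z0 ≤ Z →
        ∃ _u ∈ ({()} : Finset Unit), ∀ f : ℤ × ℤ → ℕ, Pool.Agent.Y679.Cr.Bdd f →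
          (0 : ℝ) < ((Pool.Agent.Y679.Cr.Gm Pr f Z).ncard : ℝ) ∧
          δ * ((Pool.Agent.Y679.Cr.Gm Pr f Z).ncard : ℝ) ≤
            ((Pool.Agent.Y679.Cr.Gm Pr f Z ∩
              {k | Pool.Agent.Y667.OG.TOG r k}).ncard : ℝ) := by
      intro r
      refine Pool.Agent.Q323.CO.posL good (L := ({()} : Finset Unit))
        (T := fun _ c => Pool.Agent.Y667.OG.TOG r c) ?_
      obtain ⟨c, hc, H0, h⟩ := Pool.Agent.Y667.OG.curvesOG r
      refine ⟨c, hc, H0, fun H hH => ⟨(), mem_singleton_self _, _, fun k hk => ?_, h H hH⟩⟩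
      exact mem_filter.1 (mem_coe.1 hk)
    choose δ hδ Z0 hZ0 using h0
    refine ⟨∏ i, δ (r i), prod_pos fun i _ => hδ (r i), ?_⟩
    have hev : ∀ᶠ Z : ℕ in atTop, ∀ i, Z0 (r i) ≤ Z :=
      eventually_all.2 fun i => eventually_ge_atTop _
    filter_upwards [hev, eventually_ge_atTop (Z0 0)] with Z hZ hZ2 f hf
    have hpos : (0 : ℝ) < ((Fam f Z).ncard : ℝ) := by
      obtain ⟨u, -, h1⟩ := hZ0 0 Z hZ2
      rw [FamC_eq]
      exact (h1 f (bdd hf)).1
    refine Pool.Agent.Q323.CO.tup (hfin f hf Z)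
      (fun i => {k | Pool.Agent.Y667.OG.TOG (r i) k}) (fun i => δ (r i))
      (fun i => (hδ (r i)).le) hpos (fun i => ?_) _ (fun c hc => ?_)
    · obtain ⟨u, -, h1⟩ := hZ0 (r i) Z (hZ i)
      have h2 := (h1 f (bdd hf)).2
      rw [← FamC_eq] at h2
      exact h2
    · exact parity_of (fun i => (hc i).1.1) (fun i => (hc i).1.2.2.1) fun i => (hc i).2

end Pool.Agent.Results.MP_ac3185_nt.ProductsByConductor
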