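import Mathlib
import Pool.Agent.Y667.OG.Main
import Pool.Agent.Y667.OG.Prod
import Pool.Agent.Y667.RP.Disc
import Pool.Agent.W672.FK.Lowf
import Pool.Agent.W307.RT.Tors
import Pool.Agent.Q97.PT.Main

/-!
# The parity conjecture for products of curves over the fields whose Galois closure has odd degree

All `g`-tuples of elliptic curves over `ℚ` with full rational 2-torsion, ordered by the naive height or
by the absolute value of the minimal discriminant, `A = E₁ × ... × E_g`. For all `r₁, ..., r_g ≥ 0` a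
positive proportion of the tuples has the following property: the 2-Selmer group of `A` over `ℚ` has
order `2 ^ (∑ r_i + 2 g)`, the rank of `A(ℚ)` is at most `∑ r_i`, and over EVERY number field `K` whose
Galois closure over `ℚ` has odd degree (`K` need not be Galois) the product of the local root numbers
of `A` is `(-1) ^ (∑ r_i)` and the rank of `A(K)` has the parity of the rank of `A(ℚ)`. For
`r₁ = ... = r_g = 0` this is the parity conjecture for `A` over all these fields: the rank of `A(K)` is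
even and `w(A/K) = 1`.
-/

namespace Pool.Agent.Results.MP_ac3185_nt.ProductsOddGaloisClosure

open Finset Filter Topology NumberField

/-- the curve `y² = x³ + A x + B` over `ℚ` -/
def E (A B : ℤ) : WeierstrassCurve ℚ := ⟨0, 0, 0, (A : ℚ), (B : ℚ)⟩

/-- the absolute value of the minimal discriminant of an elliptic curve `W` over `ℚ`: the smallest
absolute value of the discriminant of a Weierstrass equation `V` with integer coefficients which is
isomorphic to `W` over `ℚ` -/
noncomputable def minDisc (W : WeierstrassCurve ℚ) : ℕ :=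
  sInf {n : ℕ | ∃ (V : WeierstrassCurve ℤ) (C : WeierstrassCurve.VariableChange ℚ),
    C • W = V.map (Int.castRingHom ℚ) ∧ n = V.Δ.natAbs}

/-- the naive height of `y² = x³ + A x + B` is at most `Z` -/
def HeightLe (c : ℤ × ℤ) (Z : ℕ) : Prop := 4 * |c.1| ^ 3 ≤ Z ∧ 27 * c.2 ^ 2 ≤ Z

/-- the minimal discriminant of `y² = x³ + A x + B` is at most `Z` in absolute value -/
def DiscLe (c : ℤ × ℤ) (Z : ℕ) : Prop := minDisc (E c.1 c.2) ≤ Z

/-- The pairs `(A, B)` of integers such that `4 A³ + 27 B² ≠ 0`, there is no prime `p` with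
`p⁴ ∣ A` and `p⁶ ∣ B`, `Z/2 x Z/2` embeds in the group of the rational points of
`y² = x³ + A x + B`, and the size (`HeightLe` or `DiscLe`) is at most `Z`. Every elliptic curve over
`ℚ` with full rational 2-torsion is isomorphic to `E A B` for exactly one pair with the first three
properties. -/
def Fam (I : ℤ × ℤ → ℕ → Prop) (Z : ℕ) : Set (ℤ × ℤ) :=
  {c : ℤ × ℤ | 4 * c.1 ^ 3 + 27 * c.2 ^ 2 ≠ 0 ∧
    (∀ p : ℕ, p.Prime → ¬ ((p : ℤ) ^ 4 ∣ c.1 ∧ (p : ℤ) ^ 6 ∣ c.2)) ∧
    (∃ f : ZMod 2 × ZMod 2 →+ (E c.1 c.2).toAffine.Point, Function.Injective f) ∧ I c Z}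

/-- the `g`-tuples of curves of size at most `Z` -/
def Tuples (I : ℤ × ℤ → ℕ → Prop) (g Z : ℕ) : Set (Fin g → ℤ × ℤ) := {c | ∀ i, c i ∈ Fam I Z}

/-- the proportion of the tuples of `S` among the tuples of curves of size at most `Z` -/
noncomputable def proportion (I : ℤ × ℤ → ℕ → Prop) (g : ℕ) (S : Set (Fin g → ℤ × ℤ)) (Z : ℕ) : ℝ :=
  ((Tuples I g Z ∩ S).ncard : ℝ) / (Tuples I g Z).ncard

lemma FamH_eq (H : ℕ) : Fam HeightLe H = (Pool.Agent.W307.RT.Cv 2 H : Set (ℤ × ℤ)) := by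
  classical
  ext c
  have h : Pool.Agent.W307.RT.HasT 2 (Pool.Agent.W307.RT.Sh c.1 c.2) ↔
    ∃ f : ZMod 2 × ZMod 2 →+ (E c.1 c.2).toAffine.Point, Function.Injective f :=
    Pool.Agent.W307.RT.tors_iff
  unfold Fam HeightLe Pool.Agent.W307.RT.Cv
  rw [Set.mem_ofPred_eq, mem_coe, mem_filter, h, mem_product, mem_Icc, mem_Icc]
  constructor
  · rintro ⟨h1, h2, h3, h4, h5⟩
    refine ⟨⟨?_, ?_⟩, h1, h4, h5, h2, h3⟩
    · rw [← abs_le]
      have h0 := abs_nonneg c.1
      rcases eq_or_lt_of_le h0 with h6 | h6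
      · rw [← h6]; positivity
      · have : 1 ≤ |c.1| := h6
        nlinarith [mul_nonneg h0 h0, mul_self_nonneg (|c.1| - 1)]
    · rw [← abs_le]
      have h0 := abs_nonneg c.2
      rw [← sq_abs] at h5
      rcases eq_or_lt_of_le h0 with h6 | h6
      · rw [← h6]; positivity
      · have : 1 ≤ |c.2| := h6
        nlinarith
  · rintro ⟨-, h1, h4, h5, h2, h3⟩
    exact ⟨h1, h2, h3, h4, h5⟩

lemma FamD_eq (D : ℕ) : Fam DiscLe D = (Pool.Agent.TH344.DS.Dv D : Set (ℤ × ℤ)) := by
  classical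
  have h0 : Fam DiscLe D = Pool.Agent.W307.RS.DvS 2 D := by
    ext c
    have h : Pool.Agent.W307.RT.HasT 2 (Pool.Agent.W307.RT.Sh c.1 c.2) ↔
        ∃ f : ZMod 2 × ZMod 2 →+ (E c.1 c.2).toAffine.Point, Function.Injective f :=
      Pool.Agent.W307.RT.tors_iff
    unfold Fam Pool.Agent.W307.RS.DvS
    rw [Set.mem_ofPred_eq, Set.mem_ofPred_eq, h]
    exact Iff.rfl
  rw [h0]
  unfold Pool.Agent.TH344.DS.Dv
  rw [dif_pos (Pool.Agent.TH344.DS.excd.1 D), Set.Finite.coe_toFinset]

/-- The number of these curves tends to infinity (ordering by height). -/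
lemma tendstoH : Tendsto (fun Z : ℕ => (Fam HeightLe Z).ncard) atTop atTop := by
  simp only [FamH_eq, Set.ncard_coe_finset]
  exact Pool.Agent.W307.RT.tendsto_of_low Pool.Agent.W672.FK.lowf

/-- The number of these curves tends to infinity (ordering by the minimal discriminant). -/
lemma tendstoD : Tendsto (fun Z : ℕ => (Fam DiscLe Z).ncard) atTop atTop := by
  have h1 := Pool.Agent.W307.RT.tendsto_of_low Pool.Agent.W672.FK.lowf
  have h2 : Tendsto (fun D : ℕ => (Pool.Agent.W307.RT.Cv 2 (D / 32)).card) atTop atTop :=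
    h1.comp (Nat.tendsto_div_const_atTop (by norm_num))
  obtain ⟨hD1, hD2, hD3⟩ := Pool.Agent.TH344.DS.excd
  refine tendsto_atTop_mono (fun D => ?_) h2
  have h3 : (Pool.Agent.TH344.DS.Dv D : Set (ℤ × ℤ)) = Pool.Agent.W307.RS.DvS 2 D := by
    unfold Pool.Agent.TH344.DS.Dv
    rw [dif_pos (hD1 D), Set.Finite.coe_toFinset]
  rw [FamD_eq, h3, ← Set.ncard_coe_finset]
  exact Set.ncard_le_ncard (Pool.Agent.W307.RS.Cv_sub Pool.Agent.W554.RS.mdl 2 (D / 32) D
    (Nat.mul_div_le D 32)) (hD1 D)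

/-- The local condition at a completion `K` of `ℚ`: there is a point `(x, y)`, `y ≠ 0`, of
`y² = x³ + A x + B` over `K` such that `(x - e) * d e` is a square for all the integer roots `e` of
`x³ + A x + B`. (Every class of `E(K) / 2 E(K)` contains a point with `y ≠ 0`.) -/
def Local (K : Type) [Field K] (A B : ℤ) (d : ℤ → ℤ) : Prop :=
  ∃ x y : K, y ≠ 0 ∧ y ^ 2 = x ^ 3 + A * x + B ∧
    ∀ e : ℤ, e ^ 3 + A * e + B = 0 → IsSquare ((x - e) * d e)

/-- The 2-Selmer group of `y² = x³ + A x + B`, a curve with three integer roots. As `E[2]` is the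
group of the families of signs with product one indexed by the roots, an element of the 2-Selmer
group is a family of classes of nonzero rational numbers modulo squares indexed by the roots `e`,
given by squarefree integers `d e` (`d e = 1` if `e` is not a root), which over `ℝ` and over `ℚ_[p]`
for all primes `p` is the family of the classes of `x - e` for a point of the curve. -/
def Sel2 (A B : ℤ) : Set (ℤ → ℤ) :=
  {d | (∀ e, Squarefree (d e)) ∧ (∀ e : ℤ, e ^ 3 + A * e + B ≠ 0 → d e = 1) ∧ Local ℝ A B d ∧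
    ∀ (p : ℕ) [Fact p.Prime], Local ℚ_[p] A B d}

/-- the 2-Selmer group of the product `A = ∏ E_i` -/
def SelA {g : ℕ} (c : Fin g → ℤ × ℤ) : Set (Fin g → ℤ → ℤ) :=
  {d | ∀ i, d i ∈ Sel2 (c i).1 (c i).2}

/-- the rank of the group `A(ℚ)` of the abelian variety `A = ∏ E_i` -/
noncomputable def rank {g : ℕ} (c : Fin g → ℤ × ℤ) : ℕ :=
  Module.finrank ℤ ((i : Fin g) → (E (c i).1 (c i).2).toAffine.Point)

section fields

variable (K : Type) [Field K] [NumberField K]

/-- the curve `y² = x³ + A x + B` over `K` -/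
def EK (A B : ℤ) : WeierstrassCurve K := ⟨0, 0, 0, (A : K), (B : K)⟩

open Classical in
/-- the rank of the group `A(K)` of the abelian variety `A = ∏ E_i` -/
noncomputable def rankK {g : ℕ} (c : Fin g → ℤ × ℤ) : ℕ :=
  Module.finrank ℤ ((i : Fin g) → (EK K (c i).1 (c i).2).toAffine.Point)

variable {K}

/-- `V` is an equation with coefficients in the ring of integers of the curve `W` over `K` -/
def ModelOf (W : WeierstrassCurve K) (V : WeierstrassCurve (𝓞 K)) : Prop :=
  ∃ C : WeierstrassCurve.VariableChange K, C • W = V.map (algebraMap (𝓞 K) K)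

/-- `a_P = N(P) + 1 - #V(𝓞 K / P)`, that is `N(P)` minus the number of the affine solutions of the
Weierstrass equation modulo `P`; for a prime of multiplicative reduction this is `1` (split) or `-1`
(non-split) -/
noncomputable def aP (V : WeierstrassCurve (𝓞 K)) (P : Ideal (𝓞 K)) : ℤ :=
  (Nat.card (𝓞 K ⧸ P) : ℤ) - Nat.card {z : (𝓞 K ⧸ P) × (𝓞 K ⧸ P) //
    (V.map (Ideal.Quotient.mk P)).toAffine.Equation z.1 z.2}

/-- the quadratic twist by `d` of the curve `V` (the curve `y² = x³ + b₂ x² + 8 b₄ x + 16 b₆`) -/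
def twist (V : WeierstrassCurve (𝓞 K)) (d : 𝓞 K) : WeierstrassCurve K :=
  ⟨0, (d : K) * (V.b₂ : K), 0, 8 * (d : K) ^ 2 * (V.b₄ : K), 16 * (d : K) ^ 3 * (V.b₆ : K)⟩

open Classical in
/-- `w` is the local root number of the elliptic curve `W` at the prime `P`, for three types of
reduction at `P`: good reduction (`1`), multiplicative reduction (`-a_P`), and, for `P` prime to `2`,
the quadratic twist by an integer `d` of odd valuation `n` at `P` of a curve with good reduction at `P`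
(`1` if `-1` is a square modulo `P` and `-1` otherwise) -/
def LocalRoot (W : WeierstrassCurve K) (P : Ideal (𝓞 K)) (w : ℤ) : Prop :=
  (∃ V : WeierstrassCurve (𝓞 K), ModelOf W V ∧ V.Δ ∉ P ∧ w = 1) ∨
  (∃ V : WeierstrassCurve (𝓞 K), ModelOf W V ∧ V.Δ ∈ P ∧ V.c₄ ∉ P ∧ w = -aP V P) ∨
  ((2 : 𝓞 K) ∉ P ∧ ∃ (V : WeierstrassCurve (𝓞 K)) (d : 𝓞 K) (n : ℕ), Odd n ∧ d ∈ P ^ n ∧
    d ∉ P ^ (n + 1) ∧ (∃ C : WeierstrassCurve.VariableChange K, C • W = twist V d) ∧ V.Δ ∉ P ∧
    w = if IsSquare (-1 : 𝓞 K ⧸ P) then 1 else -1)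

/-- `w` is the product over all the places `v` of `K` of the local root numbers of the product of the
curves `W i`: the local root number is `(-1) ^ g` at the infinite places, at `P` it is the product of
the local root numbers `f P i` of the curves, and it is `1` outside the finite set `S` -/
def RootProduct {g : ℕ} (W : Fin g → WeierstrassCurve K) (w : ℤ) : Prop :=
  ∃ f : Ideal (𝓞 K) → Fin g → ℤ,
    (∀ P : Ideal (𝓞 K), P.IsPrime → P ≠ ⊥ → ∀ i, LocalRoot (W i) P (f P i)) ∧
    ∃ S : Finset (Ideal (𝓞 K)), (∀ P ∈ S, P.IsPrime ∧ P ≠ ⊥) ∧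
      (∀ P : Ideal (𝓞 K), P.IsPrime → P ≠ ⊥ → P ∉ S → ∏ i, f P i = 1) ∧
      w = ((-1) ^ g) ^ Nat.card (InfinitePlace K) * ∏ P ∈ S, ∏ i, f P i

end fields

/-- `K` is a number field whose Galois closure over `ℚ` has odd degree: `K` is contained in a number
field `N` that is Galois of odd degree over `ℚ`. -/
def OddClosed (K : Type) [Field K] [NumberField K] : Prop :=
  ∃ (N : Type) (_ : Field N) (_ : NumberField N) (_ : Algebra K N),
    IsGalois ℚ N ∧ Odd (Module.finrank ℚ N)

/-- The `g`-tuples of curves such that for `A = ∏ E_i` the 2-Selmer group over `ℚ` has order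
`2 ^ (∑ r_i + 2 g)`, the rank of `A(ℚ)` is at most `∑ r_i`, and, over all number fields `K` with a Galois
closure of odd degree, the product of the local root numbers is `(-1) ^ (∑ r_i)` and the rank has the
parity of the rank over `ℚ`. -/
def ParityOdd {g : ℕ} (r : Fin g → ℕ) : Set (Fin g → ℤ × ℤ) :=
  {c | (SelA c).Finite ∧ (SelA c).ncard = 2 ^ (∑ i, r i + 2 * g) ∧ rank c ≤ ∑ i, r i ∧
    ∀ (K : Type) [Field K] [NumberField K], OddClosed K →
      RootProduct (fun i => EK K (c i).1 (c i).2) ((-1) ^ (∑ i, r i)) ∧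
        Even (rankK K c + rank c)}

lemma closure_of {K : Type} [Field K] [NumberField K] (h : OddClosed K) :
    Pool.Agent.Q97.PT.OddClosure ℚ K := by
  obtain ⟨N, i1, i2, i3, h1, h2⟩ := h
  exact ⟨N, i1, i2, inferInstance, i3, inferInstance, h1, h2⟩

lemma sel_card {g : ℕ} (c : Fin g → ℤ × ℤ) (r : Fin g → ℕ)
    (h : ∀ i, (Sel2 (c i).1 (c i).2).Finite ∧ (Sel2 (c i).1 (c i).2).ncard = 2 ^ (r i + 2)) :
    (SelA c).Finite ∧ (SelA c).ncard = 2 ^ (∑ i, r i + 2 * g) := by
  classical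
  have e : SelA c = ((Fintype.piFinset fun i => (h i).1.toFinset : Finset (Fin g → ℤ → ℤ)) :
      Set (Fin g → ℤ → ℤ)) := by
    ext d
    rw [mem_coe, Fintype.mem_piFinset]
    simp only [Set.Finite.mem_toFinset]
    exact Iff.rfl
  rw [e]
  refine ⟨finite_toSet _, ?_⟩
  rw [Set.ncard_coe_finset, Fintype.card_piFinset]
  have e2 : ∀ i, ((h i).1.toFinset).card = 2 ^ (r i + 2) := fun i => by
    rw [← Set.ncard_eq_toFinset_card _ (h i).1]
    exact (h i).2
  rw [prod_congr rfl fun i _ => e2 i, prod_pow_eq_pow_sum, sum_add_distrib, sum_const, card_univ,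
    Fintype.card_fin, smul_eq_mul, mul_comm g 2]

lemma parity_of {g : ℕ} {r : Fin g → ℕ} {c : Fin g → ℤ × ℤ}
    (hD : ∀ i, 4 * (c i).1 ^ 3 + 27 * (c i).2 ^ 2 ≠ 0)
    (hT : ∀ i, ∃ f : ZMod 2 × ZMod 2 →+ (E (c i).1 (c i).2).toAffine.Point, Function.Injective f)
    (h : ∀ i, Pool.Agent.Y667.OG.TOG (r i) (c i)) : c ∈ ParityOdd r := by
  classical
  have hT' := fun i => Pool.Agent.W307.RT.tors_iff.2 (hT i)
  have hrk : ∀ (K : Type) [Field K] [NumberField K],
      rankK K c = ∑ i, Pool.Agent.Q97.PT.rk K (c i) := by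
    intro K _ _
    have hfin : ∀ i, Module.Finite ℤ (EK K (c i).1 (c i).2).toAffine.Point := fun i =>
      Pool.Agent.Q97.PT.fin_pt (hD i) (hT' i)
    exact Pool.Agent.Y667.PA.rk_pi g (fun i => (EK K (c i).1 (c i).2).toAffine.Point)
  have hrk2 : rank c = ∑ i, Pool.Agent.Q97.PT.rk ℚ (c i) := by
    have hfin : ∀ i, Module.Finite ℤ (E (c i).1 (c i).2).toAffine.Point := fun i =>
      Pool.Agent.Q97.PT.fin_Q (hD i) (hT' i)
    have h1 : rank c = ∑ i, Module.finrank ℤ (E (c i).1 (c i).2).toAffine.Point :=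
      Pool.Agent.Y667.PA.rk_pi g (fun i => (E (c i).1 (c i).2).toAffine.Point)
    rw [h1]
    exact sum_congr rfl fun i _ => Pool.Agent.Q97.PT.rk_Q (c i)
  obtain ⟨s1, s2⟩ := sel_card c r fun i => ⟨(h i).1.1, (h i).1.2.1⟩
  refine ⟨s1, s2, ?_, ?_⟩
  · rw [hrk2]
    refine sum_le_sum fun i _ => ?_
    rw [← Pool.Agent.Q97.PT.rk_Q]
    exact Pool.Agent.Y667.MT.rank_le (hD i) (hT' i) (h i).1.1 (h i).1.2.1
  · intro K _ _ hK
    refine ⟨?_, ?_⟩
    · have h1 := Pool.Agent.Y667.OG.prodRootK (fun i => EK K (c i).1 (c i).2)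
        (fun i => (-1 : ℤ) ^ (r i)) fun i =>
          Pool.Agent.Q97.PT.root_closure (closure_of hK) (Pool.Agent.Q97.PT.root_Q (h i).2)
      rw [prod_pow_eq_pow_sum] at h1
      exact h1
    · rw [hrk K, hrk2, ← sum_add_distrib]
      exact even_sum _ fun i _ => Pool.Agent.Q97.PT.rk_closure (closure_of hK) (hD i) (hT' i)

lemma pi_eq {α : Type} [DecidableEq α] (g : ℕ) (F : Finset α) :
    {c : Fin g → α | ∀ i, c i ∈ (F : Set α)} =
      ((Fintype.piFinset fun _ : Fin g => F : Finset (Fin g → α)) : Set (Fin g → α)) := by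
  ext c
  rw [mem_coe, Fintype.mem_piFinset]
  exact Iff.rfl

lemma pi_ncard {α : Type} [DecidableEq α] (g : ℕ) (F : Finset α) :
    {c : Fin g → α | ∀ i, c i ∈ (F : Set α)}.ncard = F.card ^ g := by
  rw [pi_eq, Set.ncard_coe_finset, Fintype.card_piFinset_const]

/-- from curves to tuples -/
lemma tuples_of {I : ℤ × ℤ → ℕ → Prop} {g Z : ℕ} {δ : Fin g → ℝ} (hδ : ∀ i, 0 ≤ δ i)
    (F : Finset (ℤ × ℤ)) (hF : Fam I Z = (F : Set (ℤ × ℤ))) (P : Fin g → ℤ × ℤ → Prop)
    [∀ i, DecidablePred (P i)] (h1 : 1 ≤ F.card)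
    (h : ∀ i, δ i * (F.card : ℝ) ≤ ((F.filter (P i)).card : ℝ)) (S : Set (Fin g → ℤ × ℤ))
    (hS : ∀ c : Fin g → ℤ × ℤ, (∀ i, c i ∈ Fam I Z ∧ P i (c i)) → c ∈ S) :
    ∏ i, δ i ≤ proportion I g S Z := by
  classical
  have e1 : Tuples I g Z = {c : Fin g → ℤ × ℤ | ∀ i, c i ∈ (F : Set (ℤ × ℤ))} := by
    unfold Tuples
    rw [hF]
  have h2 : (0 : ℝ) < (F.card : ℝ) := by exact_mod_cast h1
  unfold proportion
  rw [e1, pi_ncard, Nat.cast_pow, le_div_iff₀ (by positivity)]
  have e3 : (F.card : ℝ) ^ g = ∏ _i : Fin g, (F.card : ℝ) := by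
    rw [prod_const, card_univ, Fintype.card_fin]
  rw [e3, ← prod_mul_distrib]
  calc ∏ i, (δ i * (F.card : ℝ)) ≤ ∏ i, (((F.filter (P i)).card : ℝ)) :=
        prod_le_prod (fun i _ => mul_nonneg (hδ i) h2.le) fun i _ => h i
    _ = (((Fintype.piFinset fun i => F.filter (P i) : Finset (Fin g → ℤ × ℤ)).card : ℕ) : ℝ) := by
        rw [Fintype.card_piFinset, Nat.cast_prod]
    _ ≤ _ := by
        rw [← Set.ncard_coe_finset]
        refine Nat.cast_le.2 (Set.ncard_le_ncard (fun c hc => ?_) (Set.Finite.inter_of_left (by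
          rw [pi_eq]
          exact finite_toSet _) _))
        rw [mem_coe, Fintype.mem_piFinset] at hc
        have h3 : ∀ i, c i ∈ F ∧ P i (c i) := fun i => mem_filter.1 (hc i)
        refine ⟨fun i => mem_coe.2 (h3 i).1, hS c fun i => ⟨?_, (h3 i).2⟩⟩
        rw [hF]
        exact mem_coe.2 (h3 i).1

/-- **Theorem.** Let `g ≥ 0`. Order the elliptic curves over `ℚ` with full rational 2-torsion by the
naive height or by the absolute value of the minimal discriminant. For both orderings there are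
finitely many tuples of `g` curves of size at most `Z`, the number of the curves tends to infinity with
`Z`, and for all `r₁, ..., r_g ≥ 0` a positive proportion of the `g`-tuples (the lower density is
positive) has the following property: for `A = ∏ E_i` the 2-Selmer group over `ℚ` has order
`2 ^ (∑ r_i + 2 g)`, the rank over `ℚ` is at most `∑ r_i`, and over every number field `K` whose Galois
closure has odd degree `w(A/K) = (-1) ^ (∑ r_i)` and the rank has the parity of the rank over `ℚ`. If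
all the `r_i` are zero then `w(A/K) = 1` and the rank of `A(K)` is even. -/
theorem result (g : ℕ) : ∀ I : ℤ × ℤ → ℕ → Prop, I = HeightLe ∨ I = DiscLe →
    (∀ Z : ℕ, (Tuples I g Z).Finite) ∧ Tendsto (fun Z : ℕ => (Fam I Z).ncard) atTop atTop ∧
    ∀ r : Fin g → ℕ, ∃ δ : ℝ, 0 < δ ∧ ∀ᶠ Z : ℕ in atTop, δ ≤ proportion I g (ParityOdd r) Z := by
  classical
  have h0 : ∀ r : ℕ, ∃ c : ℝ, 0 < c ∧ ∃ H0 : ℕ, ∀ H : ℕ, H0 ≤ H →
      c * ((Pool.Agent.W307.RT.Cv 2 H).card : ℝ) ≤
        (((Pool.Agent.W307.RT.Cv 2 H).filter (Pool.Agent.Y667.OG.TOG r)).card : ℝ) := by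
    intro r
    obtain ⟨c, hc, H0, h⟩ := Pool.Agent.Y667.OG.curvesOG r
    refine ⟨c, hc, H0, fun H hH => (h H hH).trans
      (Nat.cast_le.2 (card_le_card fun k hk => ?_))⟩
    rw [mem_filter] at hk ⊢
    exact hk
  intro I hI
  have hsub : ∀ (Z : ℕ) (r : Fin g → ℕ), ∀ c : Fin g → ℤ × ℤ,
      (∀ i, c i ∈ Fam I Z ∧ Pool.Agent.Y667.OG.TOG (r i) (c i)) → c ∈ ParityOdd r :=
    fun Z r c hc => parity_of (fun i => (hc i).1.1) (fun i => (hc i).1.2.2.1) fun i => (hc i).2
  rcases hI with rfl | rfl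
  · refine ⟨fun Z => ?_, tendstoH, ?_⟩
    · unfold Tuples
      rw [FamH_eq, pi_eq]
      exact finite_toSet _
    · intro r
      choose c hc H0 h using h0
      refine ⟨∏ i, c (r i), prod_pos fun i _ => hc _, ?_⟩
      filter_upwards [eventually_ge_atTop (∑ i, H0 (r i)), tendstoH.eventually_ge_atTop 1] with
        H hH hH1
      have e1 : (Fam HeightLe H).ncard = (Pool.Agent.W307.RT.Cv 2 H).card := by
        rw [FamH_eq, Set.ncard_coe_finset]
      rw [e1] at hH1
      refine tuples_of (fun i => (hc _).le) _ (FamH_eq H)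
        (fun i => Pool.Agent.Y667.OG.TOG (r i)) hH1 (fun i => h (r i) H ?_) _ (hsub H r)
      exact (single_le_sum (f := fun i => H0 (r i)) (fun i _ => Nat.zero_le _)
        (mem_univ i)).trans hH
  · refine ⟨fun Z => ?_, tendstoD, ?_⟩
    · unfold Tuples
      rw [FamD_eq, pi_eq]
      exact finite_toSet _
    · intro r
      have h0' : ∀ r : ℕ, ∃ c : ℝ, 0 < c ∧ ∃ H0 : ℕ, ∀ H : ℕ, H0 ≤ H →
          c * ((Pool.Agent.TH344.DS.Dv H).card : ℝ) ≤
            (((Pool.Agent.TH344.DS.Dv H).filter (Pool.Agent.Y667.OG.TOG r)).card : ℝ) := fun r =>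
        Pool.Agent.Y667.RP.disc_of_height (Pool.Agent.Y667.OG.TOG r) (h0 r)
      choose c hc H0 h using h0'
      refine ⟨∏ i, c (r i), prod_pos fun i _ => hc _, ?_⟩
      filter_upwards [eventually_ge_atTop (∑ i, H0 (r i)), tendstoD.eventually_ge_atTop 1] with
        H hH hH1
      have e1 : (Fam DiscLe H).ncard = (Pool.Agent.TH344.DS.Dv H).card := by
        rw [FamD_eq, Set.ncard_coe_finset]
      rw [e1] at hH1
      refine tuples_of (fun i => (hc _).le) _ (FamD_eq H)
        (fun i => Pool.Agent.Y667.OG.TOG (r i)) hH1 (fun i => h (r i) H ?_) _ (hsub H r)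
      exact (single_le_sum (f := fun i => H0 (r i)) (fun i _ => Nat.zero_le _)
        (mem_univ i)).trans hH

end Pool.Agent.Results.MP_ac3185_nt.ProductsOddGaloisClosure
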