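import Mathlib
import Pool.Agent.Y667.QKE.Main
import Pool.Agent.Y667.OG.Prod
import Pool.Agent.Y388.QK.Deg
import Pool.Agent.W672.FK.Lowf
import Pool.Agent.W307.RT.Tors
import Pool.Agent.Q97.PT.Main

/-!
# Products of curves over the extensions of multiquadratic fields with an odd Galois closure

All `g`-tuples of elliptic curves over `ℚ` with full rational 2-torsion, ordered by the naive height or
by the absolute value of the minimal discriminant, `A = E₁ × ... × E_g`. For every `m ≥ 2` and `N`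
there is a finite list of fields `F = ℚ(√(q_1 q'_1), ..., √(q_m q'_m))` of degree `2 ^ m`, all the
primes `q_i`, `q'_i` larger than `N`, and `δ > 0` such that for all large `Z` for some field `F` of
the list at least a proportion `δ` of the tuples of size at most `Z` satisfies the parity conjecture
over EVERY number field `K` containing `F` whose Galois closure over `F` has odd degree: the rank of
`A(K)` is even and the product of the local root numbers of `A` over `K` is `1`. One field of the list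
has this property for arbitrarily large `Z` (positive upper density).
-/

namespace Pool.Agent.Results.MP_ac3185_nt.ProductsOddOverMultiquadratic

open Finset Filter Topology NumberField

/-- the curve `y² = x³ + A x + B` over `ℚ` -/
def E (A B : ℤ) : WeierstrassCurve ℚ := ⟨0, 0, 0, (A : ℚ), (B : ℚ)⟩

/-- the absolute value of the minimal discriminant of an elliptic curve `W` over `ℚ`: the smallest
absolute value of the discriminant of a Weierstrass equation `V` with integer coefficients which is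
isomorphic to `W` over `ℚ` -/
noncomputable def minDisc (W : WeierstrassCurve ℚ) : ℕ :=
  sInf {n : ℕ | ∃ (V : WeierstrassCurve ℤ) (C : WeierstrassCurve.VariableChange ℚ),
    C • W = V.map (Int.castRingHom ℚ) ∧ n = V.Δ.natAbs}

/-- the naive height of `y² = x³ + A x + B` is at most `Z` -/
def HeightLe (c : ℤ × ℤ) (Z : ℕ) : Prop := 4 * |c.1| ^ 3 ≤ Z ∧ 27 * c.2 ^ 2 ≤ Z

/-- the minimal discriminant of `y² = x³ + A x + B` is at most `Z` in absolute value -/
def DiscLe (c : ℤ × ℤ) (Z : ℕ) : Prop := minDisc (E c.1 c.2) ≤ Z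

/-- The pairs `(A, B)` of integers such that `4 A³ + 27 B² ≠ 0`, there is no prime `p` with
`p⁴ ∣ A` and `p⁶ ∣ B`, `Z/2 x Z/2` embeds in the group of the rational points of
`y² = x³ + A x + B`, and the size (`HeightLe` or `DiscLe`) is at most `Z`. Every elliptic curve over
`ℚ` with full rational 2-torsion is isomorphic to `E A B` for exactly one pair with the first three
properties. -/
def Fam (I : ℤ × ℤ → ℕ → Prop) (Z : ℕ) : Set (ℤ × ℤ) :=
  {c : ℤ × ℤ | 4 * c.1 ^ 3 + 27 * c.2 ^ 2 ≠ 0 ∧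
    (∀ p : ℕ, p.Prime → ¬ ((p : ℤ) ^ 4 ∣ c.1 ∧ (p : ℤ) ^ 6 ∣ c.2)) ∧
    (∃ f : ZMod 2 × ZMod 2 →+ (E c.1 c.2).toAffine.Point, Function.Injective f) ∧ I c Z}

/-- the `g`-tuples of curves of size at most `Z` -/
def Tuples (I : ℤ × ℤ → ℕ → Prop) (g Z : ℕ) : Set (Fin g → ℤ × ℤ) := {c | ∀ i, c i ∈ Fam I Z}

/-- the proportion of the tuples of `S` among the tuples of curves of size at most `Z` -/
noncomputable def proportion (I : ℤ × ℤ → ℕ → Prop) (g : ℕ) (S : Set (Fin g → ℤ × ℤ)) (Z : ℕ) : ℝ :=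
  ((Tuples I g Z ∩ S).ncard : ℝ) / (Tuples I g Z).ncard

lemma FamH_eq (H : ℕ) : Fam HeightLe H = (Pool.Agent.W307.RT.Cv 2 H : Set (ℤ × ℤ)) := by
  classical
  ext c
  have h : Pool.Agent.W307.RT.HasT 2 (Pool.Agent.W307.RT.Sh c.1 c.2) ↔
    ∃ f : ZMod 2 × ZMod 2 →+ (E c.1 c.2).toAffine.Point, Function.Injective f :=
    Pool.Agent.W307.RT.tors_iff
  unfold Fam HeightLe Pool.Agent.W307.RT.Cv
  rw [Set.mem_ofPred_eq, mem_coe, mem_filter, h, mem_product, mem_Icc, mem_Icc]
  constructor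
  · rintro ⟨h1, h2, h3, h4, h5⟩
    refine ⟨⟨?_, ?_⟩, h1, h4, h5, h2, h3⟩
    · rw [← abs_le]
      have h0 := abs_nonneg c.1
      rcases eq_or_lt_of_le h0 with h6 | h6
      · rw [← h6]; positivity
      · have : 1 ≤ |c.1| := h6
        nlinarith [mul_nonneg h0 h0, mul_self_nonneg (|c.1| - 1)]
    · rw [← abs_le]
      have h0 := abs_nonneg c.2
      rw [← sq_abs] at h5
      rcases eq_or_lt_of_le h0 with h6 | h6
      · rw [← h6]; positivity
      · have : 1 ≤ |c.2| := h6
        nlinarith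
  · rintro ⟨-, h1, h4, h5, h2, h3⟩
    exact ⟨h1, h2, h3, h4, h5⟩

lemma FamD_eq (D : ℕ) : Fam DiscLe D = (Pool.Agent.TH344.DS.Dv D : Set (ℤ × ℤ)) := by
  classical
  have h0 : Fam DiscLe D = Pool.Agent.W307.RS.DvS 2 D := by
    ext c
    have h : Pool.Agent.W307.RT.HasT 2 (Pool.Agent.W307.RT.Sh c.1 c.2) ↔
        ∃ f : ZMod 2 × ZMod 2 →+ (E c.1 c.2).toAffine.Point, Function.Injective f :=
      Pool.Agent.W307.RT.tors_iff
    unfold Fam Pool.Agent.W307.RS.DvS
    rw [Set.mem_ofPred_eq, Set.mem_ofPred_eq, h]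
    exact Iff.rfl
  rw [h0]
  unfold Pool.Agent.TH344.DS.Dv
  rw [dif_pos (Pool.Agent.TH344.DS.excd.1 D), Set.Finite.coe_toFinset]

/-- The number of these curves tends to infinity (ordering by height). -/
lemma tendstoH : Tendsto (fun Z : ℕ => (Fam HeightLe Z).ncard) atTop atTop := by
  simp only [FamH_eq, Set.ncard_coe_finset]
  exact Pool.Agent.W307.RT.tendsto_of_low Pool.Agent.W672.FK.lowf

/-- The number of these curves tends to infinity (ordering by the minimal discriminant). -/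
lemma tendstoD : Tendsto (fun Z : ℕ => (Fam DiscLe Z).ncard) atTop atTop := by
  have h1 := Pool.Agent.W307.RT.tendsto_of_low Pool.Agent.W672.FK.lowf
  have h2 : Tendsto (fun D : ℕ => (Pool.Agent.W307.RT.Cv 2 (D / 32)).card) atTop atTop :=
    h1.comp (Nat.tendsto_div_const_atTop (by norm_num))
  obtain ⟨hD1, hD2, hD3⟩ := Pool.Agent.TH344.DS.excd
  refine tendsto_atTop_mono (fun D => ?_) h2
  have h3 : (Pool.Agent.TH344.DS.Dv D : Set (ℤ × ℤ)) = Pool.Agent.W307.RS.DvS 2 D := by
    unfold Pool.Agent.TH344.DS.Dv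
    rw [dif_pos (hD1 D), Set.Finite.coe_toFinset]
  rw [FamD_eq, h3, ← Set.ncard_coe_finset]
  exact Set.ncard_le_ncard (Pool.Agent.W307.RS.Cv_sub Pool.Agent.W554.RS.mdl 2 (D / 32) D
    (Nat.mul_div_le D 32)) (hD1 D)

section fields

variable (K : Type) [Field K] [NumberField K]

/-- the curve `y² = x³ + A x + B` over `K` -/
def EK (A B : ℤ) : WeierstrassCurve K := ⟨0, 0, 0, (A : K), (B : K)⟩

open Classical in
/-- the rank of the group `A(K)` of the abelian variety `A = ∏ E_i` -/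
noncomputable def rankK {g : ℕ} (c : Fin g → ℤ × ℤ) : ℕ :=
  Module.finrank ℤ ((i : Fin g) → (EK K (c i).1 (c i).2).toAffine.Point)

variable {K}

/-- `V` is an equation with coefficients in the ring of integers of the curve `W` over `K` -/
def ModelOf (W : WeierstrassCurve K) (V : WeierstrassCurve (𝓞 K)) : Prop :=
  ∃ C : WeierstrassCurve.VariableChange K, C • W = V.map (algebraMap (𝓞 K) K)

/-- `a_P = N(P) + 1 - #V(𝓞 K / P)`, that is `N(P)` minus the number of the affine solutions of the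
Weierstrass equation modulo `P`; for a prime of multiplicative reduction this is `1` (split) or `-1`
(non-split) -/
noncomputable def aP (V : WeierstrassCurve (𝓞 K)) (P : Ideal (𝓞 K)) : ℤ :=
  (Nat.card (𝓞 K ⧸ P) : ℤ) - Nat.card {z : (𝓞 K ⧸ P) × (𝓞 K ⧸ P) //
    (V.map (Ideal.Quotient.mk P)).toAffine.Equation z.1 z.2}

/-- the quadratic twist by `d` of the curve `V` (the curve `y² = x³ + b₂ x² + 8 b₄ x + 16 b₆`) -/
def twist (V : WeierstrassCurve (𝓞 K)) (d : 𝓞 K) : WeierstrassCurve K :=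
  ⟨0, (d : K) * (V.b₂ : K), 0, 8 * (d : K) ^ 2 * (V.b₄ : K), 16 * (d : K) ^ 3 * (V.b₆ : K)⟩

open Classical in
/-- `w` is the local root number of the elliptic curve `W` at the prime `P`, for three types of
reduction at `P`: good reduction (`1`), multiplicative reduction (`-a_P`), and, for `P` prime to `2`,
the quadratic twist by an integer `d` of odd valuation `n` at `P` of a curve with good reduction at `P`
(`1` if `-1` is a square modulo `P` and `-1` otherwise) -/
def LocalRoot (W : WeierstrassCurve K) (P : Ideal (𝓞 K)) (w : ℤ) : Prop :=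
  (∃ V : WeierstrassCurve (𝓞 K), ModelOf W V ∧ V.Δ ∉ P ∧ w = 1) ∨
  (∃ V : WeierstrassCurve (𝓞 K), ModelOf W V ∧ V.Δ ∈ P ∧ V.c₄ ∉ P ∧ w = -aP V P) ∨
  ((2 : 𝓞 K) ∉ P ∧ ∃ (V : WeierstrassCurve (𝓞 K)) (d : 𝓞 K) (n : ℕ), Odd n ∧ d ∈ P ^ n ∧
    d ∉ P ^ (n + 1) ∧ (∃ C : WeierstrassCurve.VariableChange K, C • W = twist V d) ∧ V.Δ ∉ P ∧
    w = if IsSquare (-1 : 𝓞 K ⧸ P) then 1 else -1)

/-- `w` is the product over all the places `v` of `K` of the local root numbers of the product of the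
curves `W i`: the local root number is `(-1) ^ g` at the infinite places, at `P` it is the product of
the local root numbers `f P i` of the curves, and it is `1` outside the finite set `S` -/
def RootProduct {g : ℕ} (W : Fin g → WeierstrassCurve K) (w : ℤ) : Prop :=
  ∃ f : Ideal (𝓞 K) → Fin g → ℤ,
    (∀ P : Ideal (𝓞 K), P.IsPrime → P ≠ ⊥ → ∀ i, LocalRoot (W i) P (f P i)) ∧
    ∃ S : Finset (Ideal (𝓞 K)), (∀ P ∈ S, P.IsPrime ∧ P ≠ ⊥) ∧
      (∀ P : Ideal (𝓞 K), P.IsPrime → P ≠ ⊥ → P ∉ S → ∏ i, f P i = 1) ∧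
      w = ((-1) ^ g) ^ Nat.card (InfinitePlace K) * ∏ P ∈ S, ∏ i, f P i

end fields

/-- `K = ℚ(√d_1, ..., √d_m)` -/
def IsField {m : ℕ} (d : Fin m → ℕ) (K : Type) [Field K] [NumberField K] : Prop :=
  ∃ x : Fin m → K, (∀ i, x i ^ 2 = (d i : K)) ∧ IntermediateField.adjoin ℚ (Set.range x) = ⊤

/-- The tuples `(q_1 q'_1, ..., q_m q'_m)`, where the `q_i` and `q'_i` are `2 m` distinct primes, all
larger than `N`. -/
def Tuple {m : ℕ} (N : ℕ) (d : Fin m → ℕ) : Prop :=
  ∃ q q' : Fin m → ℕ, (∀ i, d i = q i * q' i) ∧ (∀ i, (q i).Prime ∧ N < q i) ∧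
    (∀ i, (q' i).Prime ∧ N < q' i) ∧ Function.Injective q ∧ Function.Injective q' ∧
    ∀ i j, q i ≠ q' j

/-- `K` is a number field containing `F` whose Galois closure over `F` has odd degree: `K` is
contained in a number field `N` that is Galois of odd degree over `F`. -/
def OddClosure (F K : Type) [Field F] [NumberField F] [Field K] [NumberField K] [Algebra F K] :
    Prop :=
  ∃ (N : Type) (_ : Field N) (_ : NumberField N) (_ : Algebra F N) (_ : Algebra K N),
    IsScalarTower F K N ∧ IsGalois F N ∧ Odd (Module.finrank F N)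

/-- The `g`-tuples of curves such that for `A = ∏ E_i` and all number fields `K` containing the field
`F = ℚ(√d_1, ..., √d_m)` whose Galois closure over `F` has odd degree the rank of `A(K)` is even and
the product of the local root numbers of `A` over `K` is `1`. -/
def Parity {m : ℕ} (g : ℕ) (d : Fin m → ℕ) : Set (Fin g → ℤ × ℤ) :=
  {c | ∀ (F : Type) [Field F] [NumberField F], IsField d F →
    ∀ (K : Type) [Field K] [NumberField K] [Algebra F K], OddClosure F K →
      Even (rankK K c) ∧ RootProduct (fun i => EK K (c i).1 (c i).2) 1}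

lemma gen_of {m : ℕ} {d : Fin m → ℕ} {K : Type} [Field K] [NumberField K] (h : IsField d K) :
    Pool.Agent.TH841.NF.Gen K (fun j => (d j : ℤ)) := by
  obtain ⟨x, hx, hg⟩ := h
  exact ⟨x, fun i => by rw [hx i, Int.cast_natCast], hg⟩

lemma tup_pos {m N : ℕ} {d : Fin m → ℕ} (h : Tuple N d) (i : Fin m) : (d i : ℤ) ≠ 0 := by
  obtain ⟨q, q', h1, h2, h3, -⟩ := h
  rw [h1 i]
  exact_mod_cast mul_ne_zero (h2 i).1.ne_zero (h3 i).1.ne_zero

lemma map_eq (K : Type) [Field K] [NumberField K] (A B : ℤ) :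
    (⟨0, 0, 0, (A : ℚ), (B : ℚ)⟩ : WeierstrassCurve ℚ).map (algebraMap ℚ K) = EK K A B := by
  apply WeierstrassCurve.ext
  · exact map_zero _
  · exact map_zero _
  · exact map_zero _
  · exact map_intCast _ _
  · exact map_intCast _ _

lemma good_of {m N g : ℕ} {d : Fin m → ℕ} (hd : Tuple N d) {c : Fin g → ℤ × ℤ}
    (hD : ∀ i, 4 * (c i).1 ^ 3 + 27 * (c i).2 ^ 2 ≠ 0)
    (hT : ∀ i, ∃ f : ZMod 2 × ZMod 2 →+ (E (c i).1 (c i).2).toAffine.Point, Function.Injective f)
    (h : ∀ i, Pool.Agent.Y667.QK.R.E.TwE (fun j => (d j : ℤ)) (c i)) : c ∈ Parity g d := by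
  classical
  intro F _ _ hF K _ _ _ hK
  have hT' := fun i => Pool.Agent.W307.RT.tors_iff.2 (hT i)
  refine ⟨?_, ?_⟩
  · have hfinK : ∀ i, Module.Finite ℤ (EK K (c i).1 (c i).2).toAffine.Point := fun i =>
      Pool.Agent.Q97.PT.fin_pt (hD i) (hT' i)
    have e1 : rankK K c = ∑ i, Module.finrank ℤ (EK K (c i).1 (c i).2).toAffine.Point :=
      Pool.Agent.Y667.PA.rk_pi g (fun i => (EK K (c i).1 (c i).2).toAffine.Point)
    rw [e1]
    refine even_sum _ fun i _ => ?_
    have h1 : Pool.Agent.Q97.PT.rk F (c i) = 0 :=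
      (Pool.Agent.Y667.QK.field_of (tup_pos hd) (hD i) (hT' i) (h i).1 F (gen_of hF)).1
    have h2 := Pool.Agent.Q97.PT.rk_closure hK (hD i) (hT' i)
    rw [h1, add_zero] at h2
    exact h2
  · have h1 := Pool.Agent.Y667.OG.prodRootK (fun i => EK K (c i).1 (c i).2)
      (fun _ => (1 : ℤ)) fun i => by
        refine Pool.Agent.Q97.PT.root_closure hK ?_
        have h1 := (h i).2 F (gen_of hF)
        rw [map_eq] at h1
        exact h1
    rw [prod_const_one] at h1
    exact h1

lemma tup8 {m N : ℕ} {d : Fin m → ℕ} (h : Pool.Agent.Y667.QK.R.E.Tup8 m N d) : Tuple N d := by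
  obtain ⟨q, q', h1, h2, h3, h4⟩ := h
  exact ⟨q, q', h1, fun i => ⟨(h2 i).1, (h2 i).2.1⟩, fun i => ⟨(h3 i).1, (h3 i).2.1⟩, h4⟩

lemma deg_of {m N : ℕ} {d : Fin m → ℕ} (hd : Tuple N d) (K : Type) [Field K] [NumberField K]
    (hK : IsField d K) : Module.finrank ℚ K = 2 ^ m := by
  obtain ⟨q, q', h1, h2, h3, h4, h5, h6⟩ := hd
  refine Pool.Agent.Y388.QK.DEG m q q' (fun j => (h2 j).1) (fun j => (h3 j).1) h4 h5 h6 K ?_
  have := gen_of hK
  have e : (fun j => ((q j * q' j : ℕ) : ℤ)) = fun j => (d j : ℤ) := by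
    funext j
    rw [h1 j]
  rw [e]
  exact this

/-- one of finitely many -/
lemma pack {ι : Type} (L : Finset ι) (p : ι → ℕ → ℝ) (δ : ℝ)
    (h : ∀ᶠ Z : ℕ in atTop, ∃ d ∈ L, δ ≤ p d Z) : ∃ d ∈ L, ∃ᶠ Z : ℕ in atTop, δ ≤ p d Z := by
  by_contra hcon
  push Not at hcon
  have h1 : ∀ᶠ Z : ℕ in atTop, ∀ d ∈ L, ¬ δ ≤ p d Z := by
    rw [Filter.eventually_all_finset]
    intro d hd
    exact (hcon d hd).mono fun Z hZ => not_le.2 hZ
  obtain ⟨Z, hZ1, hZ2⟩ := (h.and h1).exists
  obtain ⟨d, hd, hle⟩ := hZ1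
  exact hZ2 d hd hle

lemma pi_eq {α : Type} [DecidableEq α] (g : ℕ) (F : Finset α) :
    {c : Fin g → α | ∀ i, c i ∈ (F : Set α)} =
      ((Fintype.piFinset fun _ : Fin g => F : Finset (Fin g → α)) : Set (Fin g → α)) := by
  ext c
  rw [mem_coe, Fintype.mem_piFinset]
  exact Iff.rfl

lemma pi_ncard {α : Type} [DecidableEq α] (g : ℕ) (F : Finset α) :
    {c : Fin g → α | ∀ i, c i ∈ (F : Set α)}.ncard = F.card ^ g := by
  rw [pi_eq, Set.ncard_coe_finset, Fintype.card_piFinset_const]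

/-- from curves to tuples -/
lemma tuples_of {I : ℤ × ℤ → ℕ → Prop} {g Z : ℕ} {δ : ℝ} (hδ : 0 ≤ δ) (F : Finset (ℤ × ℤ))
    (hF : Fam I Z = (F : Set (ℤ × ℤ))) (P : ℤ × ℤ → Prop) [DecidablePred P]
    (h1 : 1 ≤ F.card) (h : δ * (F.card : ℝ) ≤ ((F.filter P).card : ℝ)) (S : Set (Fin g → ℤ × ℤ))
    (hS : ∀ c : Fin g → ℤ × ℤ, (∀ i, c i ∈ Fam I Z ∧ P (c i)) → c ∈ S) :
    δ ^ g ≤ proportion I g S Z := by
  classical
  have e1 : Tuples I g Z = {c : Fin g → ℤ × ℤ | ∀ i, c i ∈ (F : Set (ℤ × ℤ))} := by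
    unfold Tuples
    rw [hF]
  have h2 : (0 : ℝ) < (F.card : ℝ) := by exact_mod_cast h1
  unfold proportion
  rw [e1, pi_ncard, Nat.cast_pow, le_div_iff₀ (by positivity), ← mul_pow]
  calc (δ * (F.card : ℝ)) ^ g ≤ (((F.filter P).card : ℝ)) ^ g :=
        pow_le_pow_left₀ (by positivity) h g
    _ = (({c : Fin g → ℤ × ℤ | ∀ i, c i ∈ ((F.filter P : Finset (ℤ × ℤ)) : Set (ℤ × ℤ))}.ncard : ℕ)
        : ℝ) := by rw [pi_ncard, Nat.cast_pow]
    _ ≤ _ := by
        refine Nat.cast_le.2 (Set.ncard_le_ncard (fun c hc => ?_) (Set.Finite.inter_of_left (by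
          rw [pi_eq]
          exact finite_toSet _) _))
        have h3 : ∀ i, c i ∈ F ∧ P (c i) := fun i => by
          have := hc i
          rw [mem_coe, mem_filter] at this
          exact this
        refine ⟨fun i => mem_coe.2 (h3 i).1, hS c fun i => ⟨?_, (h3 i).2⟩⟩
        rw [hF]
        exact mem_coe.2 (h3 i).1

/-- **Theorem.** Let `g ≥ 0`. Order the elliptic curves over `ℚ` with full rational 2-torsion by the
naive height or by the absolute value of the minimal discriminant. For both orderings there are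
finitely many tuples of `g` curves of size at most `Z`, the number of the curves tends to infinity with
`Z`, and for all `m ≥ 2`, `N` there are a finite list `L` of tuples of products of two primes larger
than `N`, the `2 m` primes distinct, so that the fields `F = ℚ(√d_1, ..., √d_m)` have degree `2 ^ m`,
and `δ > 0` such that for all large `Z` for some `d` in `L` at least a proportion `δ` of the
`g`-tuples of curves of size at most `Z` has, for `A = ∏ E_i` and every number field `K` containing `F`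
whose Galois closure over `F` has odd degree, even `rk A(K)` and `w(A/K) = 1`; and one `d` in `L` has
this property for arbitrarily large `Z`. -/
theorem result (g : ℕ) : ∀ I : ℤ × ℤ → ℕ → Prop, I = HeightLe ∨ I = DiscLe →
    (∀ Z : ℕ, (Tuples I g Z).Finite) ∧ Tendsto (fun Z : ℕ => (Fam I Z).ncard) atTop atTop ∧
    ∀ m N : ℕ, 2 ≤ m → ∃ L : Finset (Fin m → ℕ), (∀ d ∈ L, Tuple N d ∧
        ∀ (K : Type) [Field K] [NumberField K], IsField d K → Module.finrank ℚ K = 2 ^ m) ∧
      ∃ δ : ℝ, 0 < δ ∧ (∀ᶠ Z : ℕ in atTop, ∃ d ∈ L, δ ≤ proportion I g (Parity g d) Z) ∧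
        ∃ d ∈ L, ∃ᶠ Z : ℕ in atTop, δ ≤ proportion I g (Parity g d) Z := by
  classical
  intro I hI
  have hsub : ∀ (Z m N : ℕ) (d : Fin m → ℕ), Tuple N d → ∀ c : Fin g → ℤ × ℤ,
      (∀ i, c i ∈ Fam I Z ∧ Pool.Agent.Y667.QK.R.E.TwE (fun j => (d j : ℤ)) (c i)) →
        c ∈ Parity g d := fun Z m N d hd c hc =>
    good_of hd (fun i => (hc i).1.1) (fun i => (hc i).1.2.2.1) fun i => (hc i).2
  rcases hI with rfl | rfl
  · refine ⟨fun Z => ?_, tendstoH, ?_⟩
    · unfold Tuples
      rw [FamH_eq, pi_eq]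
      exact finite_toSet _
    · intro m N hm
      obtain ⟨L, hL, δ, hδ, H0, h⟩ := Pool.Agent.Y667.QK.R.E.mainH m N hm
      have key : ∀ᶠ Z : ℕ in atTop, ∃ d ∈ L, δ ^ g ≤ proportion HeightLe g (Parity g d) Z := by
        filter_upwards [eventually_ge_atTop H0, tendstoH.eventually_ge_atTop 1] with H hH hH1
        obtain ⟨d, hd, hle⟩ := h H hH
        refine ⟨d, hd, ?_⟩
        have e1 : (Fam HeightLe H).ncard = (Pool.Agent.W307.RT.Cv 2 H).card := by
          rw [FamH_eq, Set.ncard_coe_finset]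
        rw [e1] at hH1
        exact tuples_of hδ.le _ (FamH_eq H) _ hH1 hle _ (hsub H m N d (tup8 (hL d hd)))
      exact ⟨L, fun d hd => ⟨tup8 (hL d hd), fun K _ _ hK => deg_of (tup8 (hL d hd)) K hK⟩, δ ^ g,
        pow_pos hδ g, key, pack L (fun d Z => proportion HeightLe g (Parity g d) Z) _ key⟩
  · refine ⟨fun Z => ?_, tendstoD, ?_⟩
    · unfold Tuples
      rw [FamD_eq, pi_eq]
      exact finite_toSet _
    · intro m N hm
      obtain ⟨L, hL, δ, hδ, H0, h⟩ := Pool.Agent.Y667.QK.R.E.mainD m N hm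
      have key : ∀ᶠ Z : ℕ in atTop, ∃ d ∈ L, δ ^ g ≤ proportion DiscLe g (Parity g d) Z := by
        filter_upwards [eventually_ge_atTop H0, tendstoD.eventually_ge_atTop 1] with H hH hH1
        obtain ⟨d, hd, hle⟩ := h H hH
        refine ⟨d, hd, ?_⟩
        have e1 : (Fam DiscLe H).ncard = (Pool.Agent.TH344.DS.Dv H).card := by
          rw [FamD_eq, Set.ncard_coe_finset]
        rw [e1] at hH1
        exact tuples_of hδ.le _ (FamD_eq H) _ hH1 hle _ (hsub H m N d (tup8 (hL d hd)))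
      exact ⟨L, fun d hd => ⟨tup8 (hL d hd), fun K _ _ hK => deg_of (tup8 (hL d hd)) K hK⟩, δ ^ g,
        pow_pos hδ g, key, pack L (fun d Z => proportion DiscLe g (Parity g d) Z) _ key⟩

end Pool.Agent.Results.MP_ac3185_nt.ProductsOddOverMultiquadratic
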